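import Pool.Agent.Lib.MP_1812d6_ag.Main

/-!
# A threefold in `ℙ^5` whose general projection to `ℙ^4` has a disconnected triple locus

This answers the question of Zak in the negative: `N = 5`, `n = 3`, `k = 3` satisfy
`N - 1 = 4 = (k + 1) (N - n - 1)`, and for every centre `O` in a dense open subset of `ℙ^5` the
locus `X_3` is not connected.
-/

set_option autoImplicit false

universe u

namespace Pool.Agent.Results.MP_1812d6_ag.Disconnected

open Pool.Agent.Lib.MP_1812d6_ag MvPolynomial

open scoped LinearAlgebra.Projectivization Topology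

/-- Over every algebraically closed field of characteristic zero there are a nondegenerate
irreducible variety `X ⊆ ℙ^N` of dimension `n` and `k ≥ 1` with
`(k + 1) (N - n - 1) ≤ N - 1` such that for all `O` in a dense open subset `V` of `ℙ^N`, the
point `O` is not on `X` and the `k`-fold locus of the projection of `X` from `O` is not
connected. -/
theorem result (K : Type u) [Field K] [IsAlgClosed K] [CharZero K] :
    ∃ (N n k : ℕ) (I : Ideal (MvPolynomial (Fin (N + 1)) K)),
      IsVarietyIdeal N n I ∧ IsNondegenerate I ∧
      1 ≤ k ∧ ((k : ℤ) + 1) * ((N : ℤ) - n - 1) ≤ (N : ℤ) - 1 ∧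
      ∃ V : Set (ℙ K (Fin (N + 1) → K)), IsDenseOpen V ∧ ∀ O ∈ V, HasDisconnectedLocus I k O :=
  main K

end Pool.Agent.Results.MP_1812d6_ag.Disconnected
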